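import Pool.Agent.MP_5e38ef_lc.WW.Basic

namespace Pool.Agent.MP_5e38ef_lc.WW
open Finset TP SP

theorem sup_count {α : Type} [DecidableEq α] (N Q : Finset α) (a : ℕ) :
    ((powersetCard a N).filter (fun σ => Q ⊆ σ)).card ≤ N.card ^ (a - Q.card) := by
  refine le_trans (card_le_card_of_injOn (t := powersetCard (a - Q.card) N) (fun σ => σ \ Q)
    (fun σ hσ => ?_) fun σ hσ σ' hσ' e => ?_) ?_
  · obtain ⟨h1, h2⟩ := mem_filter.1 hσ
    obtain ⟨h3, h4⟩ := mem_powersetCard.1 h1
    exact mem_powersetCard.2 ⟨sdiff_subset.trans h3, by rw [card_sdiff_of_subset h2, h4]⟩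
  · rw [← sdiff_union_of_subset (mem_filter.1 hσ).2, ← sdiff_union_of_subset (mem_filter.1 hσ').2]
    exact congrArg (· ∪ Q) e
  · rw [card_powersetCard]
    exact Nat.choose_le_pow _ _

theorem pd_count {k n : ℕ} (C : Finset (Fin k → Fin n)) (τL x a : ℕ)
    (hτ : ∀ i c, (C.filter (fun l => l i = c)).card ≤ τL) (hk : 0 < k)
    (hx : x + a * k * τL ≤ C.card) :
    x ^ a ≤ a.factorial * ((powersetCard a C).filter pd).card := by
  induction a with
  | zero => simp [filter_singleton, pd]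
  | succ a ih =>
    have h0 : x + a * k * τL ≤ C.card := le_trans (by gcongr; omega) hx
    have h1 : ((powersetCard a C).filter pd).card * x ≤
        ((powersetCard (a + 1) C).filter pd).card * (a + 1) := by
      refine card_mul_le_card_mul (· ⊆ ·) (fun σ hσ => ?_) fun σ hσ => ?_
      · obtain ⟨h1, h2⟩ := mem_filter.1 hσ
        obtain ⟨h3, h4⟩ := mem_powersetCard.1 h1
        have h5 := card_filter_add_card_filter_not (s := C) fun l => ∀ l' ∈ σ, ∀ i, l i ≠ l' i
        have h6 : (C.filter fun l => ¬ ∀ l' ∈ σ, ∀ i, l i ≠ l' i).card ≤ a * k * τL := by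
          refine (card_le_card (t := σ.biUnion fun l' => univ.biUnion fun i =>
            C.filter fun l => l i = l' i) fun l hl => ?_).trans ?_
          · obtain ⟨h7, h8⟩ := mem_filter.1 hl
            push Not at h8
            obtain ⟨l', h9, i, e⟩ := h8
            exact mem_biUnion.2 ⟨l', h9, mem_biUnion.2 ⟨i, mem_univ _, mem_filter.2 ⟨h7, e⟩⟩⟩
          · rw [mul_assoc, ← h4]
            refine card_biUnion_le_card_mul _ _ _ fun l' _ => ?_
            simpa using card_biUnion_le_card_mul univ _ _ fun i _ => hτ i (l' i)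
        have h7 : ∀ l ∈ C.filter fun l => ∀ l' ∈ σ, ∀ i, l i ≠ l' i, l ∉ σ := fun l hl h =>
          (mem_filter.1 hl).2 l h ⟨0, hk⟩ rfl
        refine le_trans (by omega) (card_le_card_of_injOn
          (s := C.filter fun l => ∀ l' ∈ σ, ∀ i, l i ≠ l' i) (fun l => insert l σ)
          (fun l hl => ?_) fun l hl l' hl' e => (insert_inj (h7 l hl)).1 e)
        obtain ⟨h8, h9⟩ := mem_filter.1 hl
        refine (mem_bipartiteAbove _).2 ⟨mem_filter.2 ⟨mem_powersetCard.2 ⟨insert_subset h8 h3, by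
          rw [card_insert_of_notMem (h7 l hl), h4]⟩, fun u hu v hv huv i => ?_⟩, subset_insert _ _⟩
        rcases mem_insert.1 hu with rfl | hu' <;> rcases mem_insert.1 hv with rfl | hv'
        · exact (huv rfl).elim
        · exact h9 v hv' i
        · exact (h9 u hu' i).symm
        · exact h2 u hu' v hv' huv i
      · refine (card_le_card (t := powersetCard a σ) fun s hs => ?_).trans ?_
        · obtain ⟨h1, h2⟩ := (mem_bipartiteBelow _).1 hs
          exact mem_powersetCard.2 ⟨h2, (mem_powersetCard.1 (mem_filter.1 h1).1).2⟩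
        · rw [card_powersetCard, (mem_powersetCard.1 (mem_filter.1 hσ).1).2, Nat.choose_succ_self_right]
    calc x ^ (a + 1) ≤ a.factorial * ((powersetCard a C).filter pd).card * x := by
          rw [pow_succ]; exact Nat.mul_le_mul_right _ (ih h0)
      _ ≤ a.factorial * (((powersetCard (a + 1) C).filter pd).card * (a + 1)) := by
          rw [mul_assoc]; exact Nat.mul_le_mul_left _ h1
      _ = _ := by rw [Nat.factorial_succ]; ring

lemma greedy_StarA {α : Type} [DecidableEq α] (G : Finset α) (r : α → α → Prop) [DecidableRel r]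
    (D : ℕ) (hs : ∀ σ σ', r σ σ' → r σ' σ) (hr : ∀ σ ∈ G, r σ σ) :
    ∃ I ⊆ G, (∀ σ ∈ I, ∀ σ' ∈ I, r σ σ' → σ = σ') ∧
      D * G.card ≤ D ^ 2 * I.card + ((G ×ˢ G).filter fun x => r x.1 x.2).card := by
  let low := G.filter fun σ => (G.filter (r σ)).card ≤ D
  obtain ⟨I, hI, hm⟩ := exists_max_image
    (low.powerset.filter fun I => ∀ σ ∈ I, ∀ σ' ∈ I, r σ σ' → σ = σ') card ⟨∅, by simp⟩
  obtain ⟨h1, h2⟩ := mem_filter.1 hI
  have h3 := mem_powerset.1 h1
  refine ⟨I, h3.trans (filter_subset _ _), h2, ?_⟩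
  have h4 : low.card ≤ I.card * D := by
    refine (card_le_card (t := I.biUnion fun τ => G.filter (r τ)) fun σ hσ => ?_).trans
      (card_biUnion_le_card_mul _ _ _ fun τ hτ => (mem_filter.1 (h3 hτ)).2)
    have h5 := (mem_filter.1 hσ).1
    by_contra h6
    have h7 : ∀ τ ∈ I, ¬ r τ σ := fun τ hτ h => h6 (mem_biUnion.2 ⟨τ, hτ, mem_filter.2 ⟨h5, h⟩⟩)
    have h8 := hm (insert σ I) (mem_filter.2 ⟨mem_powerset.2 (insert_subset hσ h3),
      fun u hu v hv e => by
        rcases mem_insert.1 hu with rfl | hu' <;> rcases mem_insert.1 hv with rfl | hv'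
        · rfl
        · exact (h7 v hv' (hs _ _ e)).elim
        · exact (h7 u hu' e).elim
        · exact h2 u hu' v hv' e⟩)
    rw [card_insert_of_notMem fun h => h7 σ h (hr σ h5)] at h8
    omega
  have h5 : (G.filter fun σ => ¬ (G.filter (r σ)).card ≤ D).card * D ≤
      ((G ×ˢ G).filter fun x => r x.1 x.2).card := by
    rw [card_filter (fun x : α × α => r x.1 x.2), sum_product]
    refine (card_nsmul_le_sum _ (fun σ => (G.filter (r σ)).card) _ fun σ hσ =>
      (not_le.1 (mem_filter.1 hσ).2).le).trans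
        ((sum_le_sum_of_subset (filter_subset _ _)).trans_eq (sum_congr rfl fun σ _ => ?_))
    exact card_filter _ _
  rw [← card_filter_add_card_filter_not (s := G) fun σ => (G.filter (r σ)).card ≤ D, mul_add]
  refine add_le_add ((Nat.mul_le_mul_left D h4).trans_eq (by ring)) (by rwa [mul_comm])

lemma sample_StarA {Y : Type} [Fintype Y] [DecidableEq Y] {P : ℕ} (z : Fin P) (J : Finset Y) :
    P ^ J.card * (univ.filter fun χ : Y → Fin P => ∀ y ∈ J, χ y = z).card =
      P ^ Fintype.card Y := by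
  have e : (univ.filter fun χ : Y → Fin P => ∀ y ∈ J, χ y = z) =
      Fintype.piFinset fun y => if y ∈ J then {z} else univ := by
    ext χ
    simp only [mem_filter, mem_univ, true_and, Fintype.mem_piFinset]
    refine forall_congr' fun y => ?_
    split_ifs with h <;> simp [h]
  have e2 : P ^ J.card = ∏ y, if y ∈ J then P else 1 := by simp
  rw [e, Fintype.card_piFinset, e2, ← prod_mul_distrib, ← card_univ, ← prod_const]
  refine prod_congr rfl fun y _ => ?_
  split_ifs <;> simp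

lemma sum_StarA {ι Y : Type} [Fintype Y] [DecidableEq Y] {P : ℕ} (z : Fin P) (T : Finset ι)
    (J : ι → Finset Y) (c : ℕ) (e : ι → ℕ) (h : ∀ t ∈ T, e t + (J t).card = c) :
    P ^ c * ∑ χ : Y → Fin P, (T.filter fun t => ∀ y ∈ J t, χ y = z).card =
      (∑ t ∈ T, P ^ e t) * P ^ Fintype.card Y := by
  simp only [card_filter]
  rw [sum_comm, mul_sum, sum_mul]
  refine sum_congr rfl fun t ht => ?_
  rw [← card_filter, ← h t ht, pow_add, mul_assoc, sample_StarA]

theorem average {α Y : Type} [DecidableEq α] [Fintype Y] [DecidableEq Y] (𝓕 : Finset α)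
    (leaf : α → Finset Y) (r : α → α → Prop) [DecidableRel r] (B : Finset Y)
    (a P D h r0 : ℕ) (hP : 0 < P) (hD : 0 < D) (hs : ∀ σ σ', r σ σ' → r σ' σ)
    (hr : ∀ σ ∈ 𝓕, r σ σ) (hl : ∀ σ ∈ 𝓕, (leaf σ).card = a ∧ leaf σ ⊆ B)
    (hX : ∑ x ∈ (𝓕 ×ˢ 𝓕).filter (fun x => r x.1 x.2), P ^ (leaf x.1 ∩ leaf x.2).card
      ≤ D * 𝓕.card * P ^ a)
    (hn : 4 * D * P ^ a * (P * r0 + h * B.card) ≤ 𝓕.card * P) :
    ∃ I ⊆ 𝓕, (∀ σ ∈ I, ∀ σ' ∈ I, r σ σ' → σ = σ') ∧
      r0 + h * (I.biUnion leaf).card ≤ I.card := by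
  by_contra hc
  let z : Fin P := ⟨0, hP⟩
  have s1 := sum_StarA z 𝓕 leaf a (fun _ => 0) fun σ hσ => by rw [(hl σ hσ).1, zero_add]
  have s2 := sum_StarA z ((𝓕 ×ˢ 𝓕).filter fun x => r x.1 x.2) (fun x => leaf x.1 ∪ leaf x.2)
    (a + a) (fun x => (leaf x.1 ∩ leaf x.2).card) fun x hx => by
      obtain ⟨h1, h2⟩ := mem_product.1 (mem_filter.1 hx).1
      rw [card_inter_add_card_union, (hl _ h1).1, (hl _ h2).1]
  have s3 := sum_StarA z B (fun y => {y}) 1 (fun _ => 0) fun y _ => by simp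
  have key : ∀ χ : Y → Fin P, 2 * D * (𝓕.filter fun σ => ∀ y ∈ leaf σ, χ y = z).card <
      (2 * D) ^ 2 * (r0 + h * (B.filter fun t => ∀ y ∈ ({t} : Finset Y), χ y = z).card) +
        (((𝓕 ×ˢ 𝓕).filter fun x => r x.1 x.2).filter
          fun x => ∀ y ∈ leaf x.1 ∪ leaf x.2, χ y = z).card := fun χ => by
    obtain ⟨I, h1, h2, h3⟩ := greedy_StarA (𝓕.filter fun σ => ∀ y ∈ leaf σ, χ y = z) r (2 * D) hs
      fun σ hσ => hr σ (mem_filter.1 hσ).1
    refine h3.trans_lt (add_lt_add_of_lt_of_le (mul_lt_mul_of_pos_left ?_ (by positivity))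
      (card_le_card fun x hx => ?_))
    · refine (not_le.1 fun h4 => hc ⟨I, h1.trans (filter_subset _ _), h2, h4⟩).trans_le
        (add_le_add_right (Nat.mul_le_mul_left _ (card_le_card fun y hy => ?_)) _)
      obtain ⟨σ, hσ, hy⟩ := mem_biUnion.1 hy
      obtain ⟨h5, h6⟩ := mem_filter.1 (h1 hσ)
      exact mem_filter.2 ⟨(hl σ h5).2 hy, by simpa using h6 y hy⟩
    · obtain ⟨h4, h5⟩ := mem_filter.1 hx
      obtain ⟨h6, h7⟩ := mem_product.1 h4
      obtain ⟨h8, h9⟩ := mem_filter.1 h6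
      obtain ⟨h10, h11⟩ := mem_filter.1 h7
      exact mem_filter.2 ⟨mem_filter.2 ⟨mem_product.2 ⟨h8, h10⟩, h5⟩,
        fun y hy => (mem_union.1 hy).elim (h9 y) (h11 y)⟩
  have h1 := sum_lt_sum_of_nonempty (s := univ) ⟨fun _ => z, mem_univ _⟩ fun χ _ => key χ
  simp only [sum_add_distrib, ← mul_sum, sum_const, card_univ, Fintype.card_fun, Fintype.card_fin,
    smul_eq_mul, pow_zero, mul_one, pow_one, pow_add] at h1 s1 s2 s3
  have h2 := Nat.mul_le_mul_right (P ^ Fintype.card Y) hX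
  rw [← s2] at h2
  have h3 := Nat.mul_le_mul_left (D * P ^ a * P ^ Fintype.card Y) hn
  have h4 := mul_lt_mul_of_pos_left h1 (show 0 < P * P ^ a * P ^ a by positivity)
  have h5 := Nat.mul_le_mul_left P h2
  generalize P ^ a = A at *
  generalize P ^ Fintype.card Y = M at *
  generalize ∑ χ : Y → Fin P, (𝓕.filter fun σ => ∀ y ∈ leaf σ, χ y = z).card = S1 at *
  generalize ∑ χ : Y → Fin P, (B.filter fun t => ∀ y ∈ ({t} : Finset Y), χ y = z).card = S3 at *
  generalize ∑ χ : Y → Fin P, (((𝓕 ×ˢ 𝓕).filter fun x => r x.1 x.2).filter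
    fun x => ∀ y ∈ leaf x.1 ∪ leaf x.2, χ y = z).card = S2 at *
  have e1 : P * A * A * (2 * D * S1) = 2 * (P * (D * 𝓕.card * A * M)) := by
    linear_combination (2 * P * A * D) * s1
  have e2 : P * A * A * ((2 * D) ^ 2 * (M * r0 + h * S3) + S2) =
      D * A * M * (4 * D * A * (P * r0 + h * B.card)) + P * (A * A * S2) := by
    linear_combination (4 * D ^ 2 * A * A * h) * s3
  have e3 : D * A * M * (𝓕.card * P) = P * (D * 𝓕.card * A * M) := by ring
  omega

end Pool.Agent.MP_5e38ef_lc.WW
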